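import Mathlib
import Pool.Agent.H8.Kir

namespace Pool.Agent.Results.MP_1cd45c_al.Holds
open LaurentPolynomial

/-- The rank-refined polynomials `A_n^r(q)`, `q = T 1`. -/
noncomputable def Ar : ℕ → ℕ → LaurentPolynomial ℤ
  | 0, 0 => 1
  | 0, _ + 1 => 0
  | n + 1, 0 => Ar n 0
  | n + 1, r + 1 => T ((r : ℤ) + 1) * Ar n (r + 1) + (T ((n : ℤ) - r) - T r) * Ar n r

/-- `A_n(q) = ∑_r A_n^r(q)`. -/
noncomputable def A (n : ℕ) : LaurentPolynomial ℤ := ∑ r ∈ Finset.range (n + 1), Ar n r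

/-- The `q`-Euler-Bernoulli triangle `b_{k,l}(q)`. -/
noncomputable def b : ℕ → ℕ → LaurentPolynomial ℤ
  | 0, 0 => 1
  | 0, l + 1 => T ((l : ℤ) + 1) * b l 0
  | k + 1, l => T (-1) * b k (l + 1) + (T ((l : ℤ) + 1) - T l) * b l k
termination_by k l => (k + l, k)
decreasing_by all_goals omega

/-- `B_n(q) = b_{n-1,0}(q)`. -/
noncomputable def B (n : ℕ) : LaurentPolynomial ℤ := b (n - 1) 0

open Pool.Agent.H8.Kir in
theorem ev_T (u : ℚˣ) (n : ℕ) : eval₂ (Int.castRingHom ℚ) u (T n) = (u : ℚ) ^ n := eval₂_T_n _ _ n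

open Pool.Agent.H8.Kir in
theorem ev_b (F : Type) [Field F] [Fintype F] (u : ℚˣ) (hu : (u : ℚ) = Fintype.card F) (k l : ℕ) :
    eval₂ (Int.castRingHom ℚ) u (b k l) = (u : ℚ) ^ l * Ph F (k + l) k := by
  induction k, l using b.induct with
  | case1 => rw [b]; simp [Ph_zero, A_zero]
  | case2 l ih =>
    rw [b, map_mul, ih, show ((l : ℤ) + 1) = ((l + 1 : ℕ) : ℤ) by push_cast; rfl, ev_T]
    simp [Ph_zero, Ph_self]
  | case3 k l ih1 ih2 =>
    rw [b, map_add, map_mul, map_mul, map_sub, ih1, ih2,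
      show ((l : ℤ) + 1) = ((l + 1 : ℕ) : ℤ) by push_cast; rfl, ev_T, ev_T, eval₂_T,
      show k + 1 + l = (k + l) + 1 by ring, Ph_succ (by omega), Z_eq (by omega),
      show k + l - k = l by omega, show k + (l + 1) = k + l + 1 by ring, add_comm l k, ← hu]
    have : (u : ℚ) ≠ 0 := u.ne_zero
    simp only [zpow_neg, zpow_one, Units.val_inv_eq_inv_val]
    field_simp
    ring

open Pool.Agent.H8.Kir in
theorem ev_Ar (F : Type) [Field F] [Fintype F] (u : ℚˣ) (hu : (u : ℚ) = Fintype.card F) (n r : ℕ) :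
    eval₂ (Int.castRingHom ℚ) u (Ar n r) = R F n r := by
  induction n generalizing r with
  | zero =>
    cases r with
    | zero => simp [Ar, R_zero_zero]
    | succ r => simp [Ar, R_big]
  | succ n ih =>
    cases r with
    | zero => rw [Ar, ih, R_succ_zero]
    | succ r =>
      rw [Ar, map_add, map_mul, map_mul, map_sub, ih, ih, R_succ_succ,
        show ((r : ℤ) + 1) = ((r + 1 : ℕ) : ℤ) by push_cast; rfl, ev_T, ev_T, ← hu]
      by_cases h : r ≤ n
      · rw [← Nat.cast_sub h, ev_T]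
      · rw [R_big (not_le.mp h)]; simp

open Pool.Agent.H8.Kir in
theorem result (n : ℕ) (hn : 1 ≤ n) : A n = B n ∧
    ∀ (F : Type) [Field F] [Fintype F] (q : ℚˣ), (q : ℚ) = Fintype.card F →
      eval₂ (Int.castRingHom ℚ) q (B n) =
        Nat.card {X : Matrix (Fin n) (Fin n) F // (∀ i j, j ≤ i → X i j = 0) ∧ X * X = 0} := by
  obtain ⟨m, rfl⟩ : ∃ m, n = m + 1 := ⟨n - 1, by omega⟩
  have hB : ∀ (F : Type) [Field F] [Fintype F] (q : ℚˣ), (q : ℚ) = Fintype.card F →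
      eval₂ (Int.castRingHom ℚ) q (B (m + 1)) = Pool.Agent.H8.Kir.A F (m + 1) := by
    intro F _ _ q hq
    rw [B, ev_b F q hq]
    simp [Ph_self]
  refine ⟨laurent_eq _ _ fun p hp u hu => ?_, fun F _ _ q hq => ?_⟩
  · haveI := Fact.mk hp
    have hu' : (u : ℚ) = Fintype.card (ZMod p) := by rw [hu, ZMod.card]
    rw [hB (ZMod p) u hu', A, map_sum, ← sum_R]
    exact Finset.sum_congr rfl fun r _ => ev_Ar _ u hu' _ r
  · rw [hB F q hq, Pool.Agent.H8.Kir.A, sum_ind]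
    rfl

end Pool.Agent.Results.MP_1cd45c_al.Holds
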